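import Pool.Agent.W370.Hughes.Grp

set_option autoImplicit false

/-! # The Hughes conjecture fails for every prime greater than 3 -/

namespace Pool.Agent.Results.MP_2bfd0d_al.HughesFails

/-- The Hughes subgroup `H_p(G)`: the subgroup generated by all elements of `G` whose order is not
`p` (`orderOf g = 0` for elements of infinite order, so they are among the generators). -/
def hughes (G : Type) [Group G] (p : ℕ) : Subgroup G :=
  Subgroup.closure {g : G | orderOf g ≠ p}

/-- For every prime `p > 3` there is a group `G` whose Hughes subgroup `H_p(G)` is nontrivial and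
proper, and whose index is divisible by `p ^ 2` (so it is not equal to `p`). -/
theorem result (p : ℕ) (hp : p.Prime) (h3 : 3 < p) :
    ∃ (G : Type) (_ : Group G),
      hughes G p ≠ ⊥ ∧ hughes G p ≠ ⊤ ∧ p ^ 2 ∣ (hughes G p).index ∧ (hughes G p).index ≠ p := by
  have : Fact p.Prime := ⟨hp⟩
  obtain ⟨G, hG, h1, h2, h4⟩ := Pool.Agent.W370.Hughes.main (p := p) h3
  refine ⟨G, hG, h1, h2, h4, ?_⟩
  intro h
  have h5 : p ^ 2 ∣ p := by
    have h6 : (hughes G p).index = p := h
    have h7 : p ^ 2 ∣ (hughes G p).index := h4
    rwa [h6] at h7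
  have h8 := Nat.le_of_dvd hp.pos h5
  have h9 := hp.two_le
  nlinarith

end Pool.Agent.Results.MP_2bfd0d_al.HughesFails
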